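import Pool.Agent.Lib.MP_3ec3f9_lc.Main

/-!
There is a model of `RCA₀ + FS(2)` in which `BΣ⁰₂` fails.
-/

namespace Pool.Agent.Variants.MP_3ec3f9_lc.NoBSigma2

theorem result : ∃ A : Pool.Agent.FreeSOA.Str, A.IsRCA0 ∧ A.FreeSet2 ∧ ¬ A.BSigma2 :=
  Pool.Agent.FreeSOA.main

end Pool.Agent.Variants.MP_3ec3f9_lc.NoBSigma2
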